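import Pool.Agent.Helper12.TL.Tri

set_option autoImplicit false
set_option linter.unusedSectionVars false

/-!
# The corner triangle

Two overlapping boxes `0` and `k` with `x_k > 0` and row difference at least `a - b`: the right
upper corner of the box of `0` and the left lower corner of the box of `k` are both negative, and
the triangle spanned by them contains positive corners of further overlapping boxes only.
-/

namespace Helper81.CT

open Helper11.N1 Helper55.KE Helper12.TL

section

variable {p q a b c : ℕ} [NeZero p] [NeZero q] {z : ZMod p → ZMod (p * q)} {i0 ρ : ZMod p}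
  {θ : ZMod (p * q)} {δ l : ℕ} {k : ℤ}

/-- abscissas of clusters are divisible by `p` -/
theorem dvd_x (h : LS p q a b c z i0 ρ θ δ l k) {N : ℕ} (hNp : N < p) {x : ℤ}
    (hx : (N : ZMod (p * q)) * θ = (x : ZMod (p * q))) : (p : ℤ) ∣ x := by
  have h1 := h.hAP.2 N hNp
  have h2 := congrArg (rp p q) h1
  rw [map_add, h.hB.hx, h.hB.hx, hx, map_intCast] at h2
  rw [← ZMod.intCast_zmod_eq_zero_iff_dvd]
  linear_combination -h2

theorem ct1 (h : LS p q a b c z i0 ρ θ δ l k) (hab : b ≤ a) {N : ℕ} (hN0 : 0 < N) (hNp : N < p)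
    {x r : ℤ} (hAt : At ρ θ N x r) (hx0 : 0 < x) (hr : (a : ℤ) - b ≤ r)
    (hs : x + r * q < a * q) :
    ∃ (f : ℕ) (x' r' : ℤ), 0 < f ∧ f < p ∧ f ≠ N ∧ At ρ θ f x' r' ∧
      ((x - b * q - 1 ≤ x' ∧ x' < 0 ∧ 0 < x' + r' * q ∧ x' + r' * q < a * q ∧ (a : ℤ) ≤ r') ∨
        (x - 1 ≤ x' ∧ x' < b * q ∧ -(b * q : ℤ) < x' + r' * q ∧ x' + r' * q < 0 ∧
          -(b : ℤ) ≤ r')) := by
  have hP := h.hP
  have hpq := h.hpq
  have ha := hP.ha
  have hb2 := hP.hb
  have hsum := hP.hab
  have hc := h.hB.hc
  have hxp : (p : ℤ) ≤ x := Int.le_of_dvd hx0 (dvd_x h hNp hAt.hx)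
  obtain ⟨xn, rfl⟩ := Int.eq_ofNat_of_zero_le hx0.le
  obtain ⟨t, ht⟩ := Int.eq_ofNat_of_zero_le (show 0 ≤ r - ((a : ℤ) - b) by omega)
  have hrt : r = a - b + t := by omega
  subst hrt
  have hxp' : p ≤ xn := by exact_mod_cast hxp
  have hq0 : 0 < q := by omega
  -- `x + t q < b q`
  have hxt : xn + t * q < b * q := by
    have e1 : (xn : ℤ) + ((a : ℤ) - b + t) * q = xn + t * q + a * q - b * q := by ring
    rw [e1] at hs
    have h2 : (xn : ℤ) + t * q < b * q := by linarith
    exact_mod_cast h2
  have htb : t < b := by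
    by_contra h1
    have h2 : b * q ≤ t * q := Nat.mul_le_mul_right _ (by omega)
    omega
  have hbq : b * q + q ≤ p * q := by
    have h2 : (b + 1) * q ≤ p * q := Nat.mul_le_mul_right _ (by omega)
    have h3 : (b + 1) * q = b * q + q := by ring
    omega
  set jN : ZMod p := i0 + (N : ZMod p) * ρ with hjN
  set X : ZMod (p * q) := byy q b c z jN with hX
  have hX0 : rp p q X = 0 := by_rp h.hB jN
  obtain ⟨m0, hm0⟩ : ∃ m0 : ℕ, m0 + xn = b * q + (1 - c) := ⟨b * q + (1 - c) - xn, by omega⟩
  have hz0 : z i0 = z (i0 + ((0 : ℕ) : ZMod p) * ρ) := by simp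
  have hzN : z jN = z i0 + ((xn : ℤ) : ZMod (p * q)) := by
    rw [hjN, h.hAP.2 N hNp, hAt.hx]
  have hc1 : ((1 - c : ℕ) : ZMod (p * q)) = ((1 - c : ℕ) : ZMod (p * q)) := rfl
  have hm0' : (m0 : ZMod (p * q)) + (xn : ZMod (p * q)) =
      (b : ZMod (p * q)) * (q : ZMod (p * q)) + ((1 - c : ℕ) : ZMod (p * q)) := by
    have := congrArg (Nat.cast : ℕ → ZMod (p * q)) hm0
    push_cast at this ⊢
    exact this
  -- positions relative to `X`
  have pN : z jN = X + ((b * q + (1 - c) : ℕ) : ZMod (p * q)) := by
    rw [hX]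
    unfold byy
    push_cast
    ring
  have pNL : z jN - (b : ZMod (p * q)) * (q : ZMod (p * q)) = X + ((1 - c : ℕ) : ZMod (p * q)) := by
    rw [hX]
    unfold byy
    ring
  have p0 : z i0 = X + (m0 : ZMod (p * q)) := by
    have h1 := hzN
    rw [pN] at h1
    push_cast at h1
    linear_combination -h1 - hm0'
  have p0T : z i0 - (b : ZMod (p * q)) * (q : ZMod (p * q)) =
      X + ((p * q - b * q + m0 : ℕ) : ZMod (p * q)) := by
    have h1 : b * q ≤ p * q := by omega
    rw [p0]
    push_cast [Nat.cast_sub h1]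
    have := cast_M (p := p) (q := q)
    push_cast at this
    linear_combination -this
  have hTlt : m0 + 1 < p * q := by omega
  have hne : i0 ≠ jN := by
    have h1 := ap_ne h.hAP (show 0 < p by omega) hNp (by omega : 0 ≠ N)
    rw [hjN]
    intro h2
    apply h1
    rw [← h2]
    simp
  set W : ZMod p := i0 + (a : ZMod p) with hW
  set S : ZMod (p * q) := X + e p q W + ((m0 + 1 : ℕ) : ZMod (p * q)) with hS
  have hrowN : jN = i0 + ((a : ZMod p) - (b : ZMod p) + (t : ZMod p)) := by
    rw [hjN, hAt.hr]
    push_cast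
    ring
  -- a positive corner of another cluster
  obtain ⟨j, hj0, hjn, hj⟩ : ∃ j : ZMod p, j ≠ i0 ∧ j ≠ jN ∧
      (tri q X W S (z j) j ∨ tri q X W S (z j - b * q) (j + a + b)) := by
    by_contra hcon
    push Not at hcon
    have key : 2 ≤ - FF q a b z X W S := by
      unfold FF
      rw [← Finset.sum_neg_distrib]
      apply sum_two hne
      · have t1 : ¬ tri q X W S (z i0) i0 := by
          rw [hS, tri_iff X W hTlt (r := p - a) (m := m0) p0 (by omega) ?_ (by omega)]
          · have h1 : q * 1 ≤ q * (p - a) := Nat.mul_le_mul_left _ (by omega)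
            omega
          · rw [hW, Nat.cast_sub (by omega), ZMod.natCast_self]
            ring
        have t2 : tri q X W S (z i0) (i0 + a) := by
          rw [hS, tri_iff X W hTlt (r := 0) (m := m0) p0 (by omega) (by rw [hW]; simp) (by omega)]
          omega
        have t4 : ¬ tri q X W S (z i0 - b * q) (i0 + a + b) := by
          rw [hS, tri_iff X W hTlt (r := b) (m := p * q - b * q + m0) p0T (by omega) ?_ (by omega)]
          · have h2 : q * b = b * q := Nat.mul_comm _ _
            omega
          · rw [hW]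
        rw [if_neg t1, if_pos t2, if_neg t4]
        split_ifs <;> omega
      · have t1 : ¬ tri q X W S (z jN) jN := by
          rw [hS, tri_iff X W hTlt (r := p - b + t) (m := b * q + (1 - c)) pN (by omega) ?_
            (by omega)]
          · have h1 : q * 1 ≤ q * (p - b + t) := Nat.mul_le_mul_left _ (by omega)
            omega
          · rw [hrowN, hW]
            push_cast [Nat.cast_sub (show b ≤ p by omega)]
            rw [ZMod.natCast_self]
            ring
        have t3 : tri q X W S (z jN - b * q) (jN + b) := by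
          rw [hS, tri_iff X W hTlt (r := t) (m := 1 - c) pNL (by omega) ?_ (by omega)]
          · have h1 : q * t = t * q := Nat.mul_comm _ _
            omega
          · rw [hrowN, hW]
            ring
        have t4 : ¬ tri q X W S (z jN - b * q) (jN + a + b) := by
          rw [hS, tri_iff X W hTlt (r := t + a) (m := 1 - c) pNL (by omega) ?_ (by omega)]
          · have h1 : q * b ≤ q * (t + a) := Nat.mul_le_mul_left _ (by omega)
            have h2 : q * b = b * q := Nat.mul_comm _ _
            omega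
          · rw [hrowN, hW]
            push_cast
            ring
        rw [if_neg t1, if_pos t3, if_neg t4]
        split_ifs <;> omega
      · intro j h1 h2
        obtain ⟨h3, h4⟩ := hcon j h1 h2
        rw [if_neg h3, if_neg h4]
        split_ifs <;> omega
    have := abs_le.1 (h.hF X W S hX0)
    omega
  obtain ⟨f, hf, hfj⟩ := ap_row h.hAP j
  have hf0 : f ≠ 0 := by
    rintro rfl
    apply hj0
    rw [hfj]
    simp
  have hfN : f ≠ N := by
    rintro rfl
    exact hjn hfj
  have hzf : z j = z i0 + (f : ZMod (p * q)) * θ := by rw [hfj, h.hAP.2 f hf]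
  have hres : res p q (z j) ≠ res p q (z i0) := fun h1 => hj0 (gen_res p q h.hG h1)
  rcases hj with hj | hj
  · unfold tri at hj
    rw [hS, off_nat _ hTlt] at hj
    set o := off X (z j) with ho
    set v := (j - W).val with hv
    have ho1 : z j = X + (o : ZMod (p * q)) := (off_spec _ _).symm
    have hv1 : j = W + (v : ZMod p) := by
      rw [hv, ZMod.natCast_zmod_val]
      ring
    have hfx : (f : ZMod (p * q)) * θ = (((o : ℤ) - m0 : ℤ) : ZMod (p * q)) := by
      rw [ho1, p0] at hzf
      push_cast
      linear_combination -hzf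
    have hfr : (f : ZMod p) * ρ = (((a : ℤ) + v : ℤ) : ZMod p) := by
      rw [hv1, hW] at hfj
      push_cast
      linear_combination -hfj
    have hstr : o + q * v ≠ m0 := by
      intro h1
      apply hres
      have h2 : (f : ZMod (p * q)) * θ = (-((q : ZMod (p * q)) * (v : ZMod (p * q)))) := by
        rw [hfx, ← h1]
        push_cast
        ring
      rw [hzf, h2, map_add, map_neg, map_mul, map_natCast, ZMod.natCast_self]
      ring
    have hlt : o + q * v < m0 := by omega
    have hltZ : (o : ℤ) + q * v < m0 := by exact_mod_cast hlt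
    have hm0Z : (m0 : ℤ) + xn = b * q + (1 - c : ℕ) := by exact_mod_cast hm0
    have hqv : (0 : ℤ) ≤ q * v := by positivity
    have hc2 : ((1 - c : ℕ) : ℤ) ≤ 1 ∧ (0 : ℤ) ≤ ((1 - c : ℕ) : ℤ) := by omega
    have hbaq : (b : ℤ) * q ≤ a * q := by exact_mod_cast Nat.mul_le_mul_right q hab
    have e1 : (o : ℤ) - m0 + (a + v) * q = o + q * v - m0 + a * q := by ring
    refine ⟨f, (o : ℤ) - m0, (a : ℤ) + v, by omega, hf, hfN, ⟨hfx, hfr⟩, Or.inl ⟨?_, ?_, ?_, ?_, ?_⟩⟩
    · push_cast
      linarith [hc2.1]
    · linarith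
    · rw [e1]
      linarith [hc2.1]
    · rw [e1]
      linarith
    · linarith [(by positivity : (0 : ℤ) ≤ v)]
  · unfold tri at hj
    rw [hS, off_nat _ hTlt] at hj
    set o := off X (z j - (b : ZMod (p * q)) * (q : ZMod (p * q))) with ho
    set v := (j + a + b - W).val with hv
    have ho1 : z j - (b : ZMod (p * q)) * (q : ZMod (p * q)) = X + (o : ZMod (p * q)) :=
      (off_spec _ _).symm
    have hv1 : j + a + b = W + (v : ZMod p) := by
      rw [hv, ZMod.natCast_zmod_val]
      ring
    have hfx : (f : ZMod (p * q)) * θ = (((o : ℤ) + b * q - m0 : ℤ) : ZMod (p * q)) := by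
      rw [p0] at hzf
      push_cast
      linear_combination ho1 - hzf
    have hfr : (f : ZMod p) * ρ = (((v : ℤ) - b : ℤ) : ZMod p) := by
      rw [hfj, hW] at hv1
      push_cast
      linear_combination hv1
    have hstr : o + q * v ≠ m0 := by
      intro h1
      apply hres
      have h2 : (f : ZMod (p * q)) * θ = (b : ZMod (p * q)) * q -
          ((q : ZMod (p * q)) * (v : ZMod (p * q))) := by
        rw [hfx, ← h1]
        push_cast
        ring
      rw [hzf, h2, map_add, map_sub, map_mul, map_mul, map_natCast, map_natCast, ZMod.natCast_self]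
      ring
    have hlt : o + q * v < m0 := by omega
    have hltZ : (o : ℤ) + q * v < m0 := by exact_mod_cast hlt
    have hm0Z : (m0 : ℤ) + xn = b * q + (1 - c : ℕ) := by exact_mod_cast hm0
    have hqv : (0 : ℤ) ≤ q * v := by positivity
    have ho0 : (0 : ℤ) ≤ o := by positivity
    have hc2 : ((1 - c : ℕ) : ℤ) ≤ 1 ∧ (0 : ℤ) ≤ ((1 - c : ℕ) : ℤ) := by omega
    have hxZ : (2 : ℤ) ≤ xn := by
      have : 2 ≤ xn := by omega
      exact_mod_cast this
    have e1 : (o : ℤ) + b * q - m0 + (v - b) * q = o + q * v - m0 := by ring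
    refine ⟨f, (o : ℤ) + b * q - m0, (v : ℤ) - b, by omega, hf, hfN, ⟨hfx, hfr⟩,
      Or.inr ⟨?_, ?_, ?_, ?_, ?_⟩⟩
    · push_cast
      linarith [hc2.1]
    · linarith
    · rw [e1]
      linarith [hc2.1]
    · rw [e1]
      linarith
    · linarith [(by positivity : (0 : ℤ) ≤ v)]

end

end Helper81.CT
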