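import Pool.Agent.Helper25.KW.Top2
import Pool.Agent.Helper81.CT.Sq

set_option autoImplicit false
set_option linter.unusedSectionVars false
set_option linter.unusedVariables false

/-!
# The corner triangle in the abstract worlds
-/

namespace Helper81.CT

open Helper11.N1 Helper55.KE Helper25.FLT Helper25.KW Helper12.TL

/-- an element of `K'` with `x > 0` and row difference at least `a - b` has a companion with
opposite signs of `x` and `s` -/
def CTF (p a b l ds : ℤ) (D : ℝ) (Cl : ℤ → ℤ → ℤ → ℤ → ℝ → Prop) : Prop :=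
  ∀ (N X R : ℤ) (I : ℝ), KGF p a b ds D (P1 l p) Cl N X R I → b ≤ a → 2 * (b : ℝ) < D →
    a - b ≤ R → 0 < X + ds * I →
    ∃ (N' X' R' : ℤ) (I' : ℝ), KGF p a b ds D (P1 l p) Cl N' X' R' I' ∧ N' ≠ N ∧
      ((X' + ds * I' < 0 ∧ 0 < X' + ds * I' + R' ∧ a ≤ R') ∨
        (0 < X' + ds * I' ∧ X' + ds * I' + R' < 0))

section

variable {p q a b c : ℕ} [NeZero p] [NeZero q] {z : ZMod p → ZMod (p * q)} {i0 ρ : ZMod p}
  {θ : ZMod (p * q)} {δ l : ℕ} {k : ℤ} {s ds J : ℤ}

theorem pos_of_mul_pos {x y : ℝ} (h : 0 < x * y) (hy : 0 < y) : 0 < x := by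
  by_contra h7
  push Not at h7
  have := mul_nonpos_of_nonpos_of_nonneg h7 hy.le
  linarith

theorem no_mod {M : ℕ} {x y : ℤ} (h : (x : ZMod M) = (y : ZMod M)) (h1 : 0 < x - y)
    (h2 : x - y < M) : False := by
  rw [ZMod.intCast_eq_intCast_iff_dvd_sub] at h
  have h3 : (M : ℤ) ∣ x - y := by
    have := (dvd_neg.2 h)
    rwa [neg_sub] at this
  have := Int.le_of_dvd h1 h3
  omega

theorem ctf (h : SG p q a b c z i0 ρ θ δ l k s ds J) (h2b : 2 * b < p) :
    CTF p a b l ds (DD p q s) (ClS p q c ρ θ s ds) := by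
  intro N X R I hK hab hD hR hx
  have hq := h.q0
  have hqR := h.q0R
  have hpq := h.ls.hpq
  have hP := h.ls.hP
  have hb := hP.hb
  have hN0 := hK.N0
  have hNp := hK.Np
  obtain ⟨n, rfl⟩ := Int.eq_ofNat_of_zero_le hN0.le
  have hn0 : 0 < n := by exact_mod_cast hN0
  have hnp : n < p := by exact_mod_cast hNp
  have hAt := h.atr hK.cl
  set x : ℤ := X * q + ds * s * n with hxdef
  have hxq : ((X : ℝ) + ds * I) * q = x := by
    have := h.qx hK.cl 0
    push_cast at this
    rw [hxdef]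
    push_cast
    linarith
  obtain ⟨b1, b2, b3, b4⟩ := hK.bx
  push_cast at b1 b2 b3 b4
  have hx0 : 0 < x := by
    have h1 : (0 : ℝ) < x := by
      rw [← hxq]
      exact mul_pos hx hqR
    exact_mod_cast h1
  have hxb : x < b * q := by
    have h1 : (x : ℝ) < b * q := by
      rw [← hxq]
      exact mul_lt_mul_of_pos_right b2 hqR
    exact_mod_cast h1
  have hs : x + R * q < a * q := by
    have h1 : (x : ℝ) + R * q < a * q := by
      have h9 : (x : ℝ) + R * q = ((X : ℝ) + ds * I + R) * q := by rw [add_mul, hxq]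
      rw [h9]
      exact mul_lt_mul_of_pos_right b4 hqR
    exact_mod_cast h1
  have hxp : (p : ℤ) ≤ x := Int.le_of_dvd hx0 (dvd_x h.ls hnp hAt.hx)
  have hps : 2 * (b : ℤ) * q < p * s := by
    have hD2 : (q : ℝ) * DD p q s = ((p * s : ℤ) : ℝ) := by rw [h.pD]; push_cast; ring
    have h1 : (q : ℝ) * (2 * ((b : ℤ) : ℝ)) < q * DD p q s := mul_lt_mul_of_pos_left hD hqR
    rw [hD2] at h1
    have h2 : (q : ℤ) * (2 * (b : ℤ)) < p * s := by exact_mod_cast h1
    linarith
  have hps2 : 2 * ((p : ℤ) * s) ≤ p * q - p := by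
    have h1 : 2 * s + 1 ≤ q := h.h2s
    have h2 : (p : ℤ) * (2 * s + 1) ≤ p * q := mul_le_mul_of_nonneg_left h1 (by positivity)
    linarith
  have hp3 : (3 : ℤ) ≤ p := by omega
  have hε : (1 - 2 * (c : ℤ)) ≤ 1 ∧ -1 ≤ (1 - 2 * (c : ℤ)) := by
    rcases h.ls.eps with ⟨h1, _⟩ | ⟨h1, _⟩ <;> omega
  obtain ⟨f, x', r', hf0, hfp, hfN, hAt', hcase⟩ :=
    ct1 h.ls (by exact_mod_cast hab) hn0 hnp hAt hx0 (by exact_mod_cast hR) hs
  have hbq0 : (0 : ℤ) ≤ b * q := by positivity
  have hbaq : (b : ℤ) * q ≤ a * q := mul_le_mul_of_nonneg_right hab (by positivity)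
  have hbnd : -(b * q : ℤ) + 2 ≤ x' ∧ x' < b * q := by
    rcases hcase with ⟨h1, h2, _⟩ | ⟨h1, h2, _⟩
    · constructor <;> linarith
    · constructor <;> linarith
  have hfl : f ≠ l := by
    rintro rfl
    have h1 := hAt'.hx
    rw [h.ls.hxl] at h1
    refine no_mod h1.symm ?_ ?_
    · linarith [hbnd.1, hε.2]
    · push_cast
      linarith [hbnd.2, hε.1]
  have hfpl : f + l ≠ p := by
    intro h0
    have h1 := hAt'.hx
    have h2 := h.ls.hxl
    have h3 := h.ls.hδ
    have h4 : (x' : ZMod (p * q)) = (((δ : ℤ) + b * q + (1 - 2 * c) : ℤ) : ZMod (p * q)) := by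
      have h5 : ((f : ZMod (p * q)) + (l : ZMod (p * q))) = (p : ZMod (p * q)) := by
        exact_mod_cast congrArg (Nat.cast : ℕ → ZMod (p * q)) h0
      rw [← h1]
      push_cast at h2 ⊢
      rw [h3, ← h5]
      linear_combination -h2
    rcases h.hδ with ⟨_, hd⟩ | ⟨_, hd⟩
    · rw [hd] at h4
      refine no_mod h4.symm ?_ ?_
      · linarith [hbnd.2, hε.2]
      · push_cast
        linarith [hbnd.1, hε.1]
    · rw [hd] at h4
      have h6 : (x' : ZMod (p * q)) = ((-(p * s : ℤ) + b * q + (1 - 2 * c) : ℤ) : ZMod (p * q)) := by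
        rw [h4]
        push_cast
        have := cast_M (p := p) (q := q)
        push_cast at this
        linear_combination this
      refine no_mod h6 ?_ ?_
      · linarith [hbnd.1, hε.2]
      · push_cast
        linarith [hbnd.2, hε.1]
  obtain ⟨X', I', hK', hxI⟩ := h.khAt (P := P1 l p) hf0 hfp
    ⟨by exact_mod_cast hfl, by exact_mod_cast hfpl⟩ hAt' (by
      rw [abs_lt]
      constructor <;> linarith [hbnd.1, hbnd.2]) (by
      rw [abs_lt]
      rcases hcase with ⟨_, _, h3, h4, _⟩ | ⟨_, _, h3, h4, _⟩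
      · constructor <;> linarith
      · constructor <;> linarith)
  have hxq' : ((X' : ℝ) + ds * I') * q = x' := by
    rw [hxI]
    field_simp
  have hsq' : ((X' : ℝ) + ds * I' + r') * q = ((x' + r' * q : ℤ) : ℝ) := by
    rw [add_mul, hxq']
    push_cast
    ring
  refine ⟨f, X', r', I', h.kgf hK', by exact_mod_cast hfN, ?_⟩
  rcases hcase with ⟨_, h2, h3, _, h5⟩ | ⟨h1, _, _, h4, _⟩
  · left
    refine ⟨?_, ?_, by exact_mod_cast h5⟩
    · have h6 : (x' : ℝ) < 0 := by exact_mod_cast h2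
      rw [← hxq'] at h6
      by_contra h7
      push Not at h7
      have := mul_nonneg h7 hqR.le
      linarith
    · have h6 : (0 : ℝ) < ((x' + r' * q : ℤ) : ℝ) := by exact_mod_cast h3
      rw [← hsq'] at h6
      exact pos_of_mul_pos h6 hqR
  · right
    have h0 : 0 < x' := by linarith
    constructor
    · have h6 : (0 : ℝ) < x' := by exact_mod_cast h0
      rw [← hxq'] at h6
      exact pos_of_mul_pos h6 hqR
    · have h6 : ((x' + r' * q : ℤ) : ℝ) < 0 := by exact_mod_cast h4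
      rw [← hsq'] at h6
      by_contra h7
      push Not at h7
      have := mul_nonneg h7 hqR.le
      linarith

end

end Helper81.CT
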